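import Pool.Agent.Helper59.VW.R5
import Pool.Agent.Helper87.VW.Sums

/-!
# VW-R4, VW-R5: final statements
-/

open Polynomial NumberField

namespace Pool.Agent.Helper12.VW

/-- VW-R4 -/
theorem refined4 (ε c₀ : ℝ) (hε : 0 < ε) (hc : 1 ≤ c₀) : ∃ C : ℝ, 0 < C ∧ ∀ X : ℝ, 1 ≤ X →
    ∀ T : Finset (Fin 5 → ℤ), (∀ b ∈ T, b 4 = 1 ∧ 0 ≤ b 3 ∧ b 3 < 4 ∧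
      |(b 2 : ℝ)| ≤ c₀ * X ^ (1 / 3 : ℝ) ∧ |(b 1 : ℝ)| ≤ c₀ * X ^ (1 / 2 : ℝ) ∧
      |(b 0 : ℝ)| ≤ c₀ * X ^ (2 / 3 : ℝ) ∧
      ∃ (P : Finset ℕ) (v : ℕ → ℕ), (∀ p ∈ P, p.Prime ∧ 4 < p ∧ 2 ≤ v p ∧ v p ≤ 3 ∧
        InInd (n := 4) b p (v p)) ∧ X ≤ c₀ * ∏ p ∈ P, (p : ℝ) ^ v p ∧
        ∏ p ∈ P, (p : ℝ) ^ v p ≤ c₀ * X) →
      (T.card : ℝ) ≤ C * X ^ (1 + ε) :=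
  refined4_of (fun B ε hB hε => pow_omega_le B ε hB hε) ε c₀ hε hc

/-- VW-R5 -/
theorem refined5 (ε c₀ : ℝ) (hε : 0 < ε) (hc : 1 ≤ c₀) : ∃ C : ℝ, 0 < C ∧ ∀ X : ℝ, 1 ≤ X →
    ∀ T : Finset (Fin 6 → ℤ), (∀ b ∈ T, b 5 = 1 ∧ 0 ≤ b 4 ∧ b 4 < 5 ∧
      |(b 3 : ℝ)| ≤ c₀ * X ^ (1 / 4 : ℝ) ∧ |(b 2 : ℝ)| ≤ c₀ * X ^ (3 / 8 : ℝ) ∧
      |(b 1 : ℝ)| ≤ c₀ * X ^ (1 / 2 : ℝ) ∧ |(b 0 : ℝ)| ≤ c₀ * X ^ (5 / 8 : ℝ) ∧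
      ∃ (P : Finset ℕ) (v : ℕ → ℕ), (∀ p ∈ P, p.Prime ∧ 5 < p ∧ 2 ≤ v p ∧ v p ≤ 4 ∧
        InInd (n := 5) b p (v p)) ∧ X ≤ c₀ * ∏ p ∈ P, (p : ℝ) ^ v p ∧
        ∏ p ∈ P, (p : ℝ) ^ v p ≤ c₀ * X) →
      (T.card : ℝ) ≤ C * X ^ (3 / 2 + ε : ℝ) :=
  refined5_of (fun B ε hB hε => pow_omega_le B ε hB hε) ε c₀ hε hc

end Pool.Agent.Helper12.VW
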