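import Pool.Agent.Helper59.VW.RAlg

/-!
# VW-R4: refined count of quartic polynomials
-/

open Polynomial

namespace Pool.Agent.Helper12.VW

namespace RC

theorem InInd.mono {n : ℕ} {a : Fin (n + 1) → ℤ} {p k l : ℕ} (h : InInd a p k) (hl : l ≤ k) :
    InInd a p l := by
  obtain ⟨hp, h⟩ := h
  refine ⟨hp, ?_⟩
  rcases h with h | h
  · exact Or.inl h
  · exact Or.inr (by omega)

theorem two_le_three {q : ℕ} (hq : 0 < q) {M : ℝ} (h : (q : ℝ) ≤ M) :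
    2 * M / q + 1 ≤ 3 * M / q := by
  have hq' : (0 : ℝ) < q := by exact_mod_cast hq
  have : 1 ≤ M / q := by rwa [le_div_iff₀ hq', one_mul]
  have e1 : 2 * M / q = 2 * (M / q) := by ring
  have e2 : 3 * M / q = 3 * (M / q) := by ring
  rw [e1, e2]
  linarith

theorem fiber4 (c₀ X : ℝ) (hc : 1 ≤ c₀) (hX : 1 ≤ X) (q2 q3 : ℕ) (hq2 : Squarefree q2)
    (hq3 : q3 ∣ q2) (hp4 : ∀ p ∈ q2.primeFactors, 4 < p) (h1 : X ≤ c₀ * ((q2 : ℝ) ^ 2 * q3))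
    (h2 : (q2 : ℝ) ^ 2 * q3 ≤ c₀ * X) (S : Finset (Fin 5 → ℤ))
    (hS : ∀ b ∈ S, b 4 = 1 ∧ 0 ≤ b 3 ∧ b 3 < 4 ∧
      |(b 2 : ℝ)| ≤ c₀ * X ^ (1 / 3 : ℝ) ∧ |(b 1 : ℝ)| ≤ c₀ * X ^ (1 / 2 : ℝ) ∧
      |(b 0 : ℝ)| ≤ c₀ * X ^ (2 / 3 : ℝ) ∧ (∀ p ∈ q2.primeFactors, InInd (n := 4) b p 2) ∧
      ∀ p ∈ q3.primeFactors, InInd (n := 4) b p 3) :
    (S.card : ℝ) ≤ 108 * c₀ ^ 4 * 3 ^ q2.primeFactors.card * X ^ (1 / 2 : ℝ) := by
  classical
  have hq20 : 0 < q2 := Nat.pos_of_ne_zero hq2.ne_zero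
  have hq30 : 0 < q3 := Nat.pos_of_dvd_of_pos hq3 hq20
  have hq3s : Squarefree q3 := hq2.squarefree_of_dvd hq3
  have hq3le : q3 ≤ q2 := Nat.le_of_dvd hq20 hq3
  have r2 : (0 : ℝ) < q2 := by exact_mod_cast hq20
  have r3 : (0 : ℝ) < q3 := by exact_mod_cast hq30
  have r3' : (1 : ℝ) ≤ q3 := by exact_mod_cast hq30
  have r32 : (q3 : ℝ) ≤ q2 := by exact_mod_cast hq3le
  have hX0 : (0 : ℝ) < X := by linarith
  have hc0 : (0 : ℝ) < c₀ := by linarith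
  have hX13 : (X ^ (1 / 3 : ℝ)) ^ 3 = X := by
    rw [← Real.rpow_natCast, ← Real.rpow_mul hX0.le]; norm_num
  have hX12 : (X ^ (1 / 2 : ℝ)) ^ 2 = X := by
    rw [← Real.rpow_natCast, ← Real.rpow_mul hX0.le]; norm_num
  have hp13 : (0 : ℝ) < X ^ (1 / 3 : ℝ) := Real.rpow_pos_of_pos hX0 _
  have hp12 : (0 : ℝ) < X ^ (1 / 2 : ℝ) := Real.rpow_pos_of_pos hX0 _
  have hp23 : (0 : ℝ) < X ^ (2 / 3 : ℝ) := Real.rpow_pos_of_pos hX0 _
  have b3le : (q3 : ℝ) ≤ c₀ * X ^ (1 / 3 : ℝ) := by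
    refine le_of_pow_le_pow_left₀ (n := 3) (by norm_num) (by positivity) ?_
    rw [mul_pow, hX13]
    calc (q3 : ℝ) ^ 3 = (q3 : ℝ) ^ 2 * q3 := by ring
      _ ≤ (q2 : ℝ) ^ 2 * q3 := by gcongr
      _ ≤ c₀ * X := h2
      _ ≤ c₀ ^ 3 * X := by
          have : c₀ ≤ c₀ ^ 3 := le_self_pow₀ hc (by norm_num)
          gcongr
  have b2le : (q2 : ℝ) ≤ c₀ * X ^ (1 / 2 : ℝ) := by
    refine le_of_pow_le_pow_left₀ (n := 2) (by norm_num) (by positivity) ?_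
    rw [mul_pow, hX12]
    calc (q2 : ℝ) ^ 2 ≤ (q2 : ℝ) ^ 2 * q3 := le_mul_of_one_le_right (by positivity) r3'
      _ ≤ c₀ * X := h2
      _ ≤ c₀ ^ 2 * X := by
          have : c₀ ≤ c₀ ^ 2 := le_self_pow₀ hc (by norm_num)
          gcongr
  have b2le' : (q2 : ℝ) ≤ c₀ * X ^ (2 / 3 : ℝ) := by
    exact b2le.trans (mul_le_mul_of_nonneg_left
      (Real.rpow_le_rpow_of_exponent_le hX (by norm_num)) hc0.le)
  set J := S.image (fun b => (b 3, b 2)) with hJ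
  -- fibres over (b3, b2)
  have hfib : ∀ j ∈ J, (({b ∈ S | (b 3, b 2) = j}.card : ℕ) : ℝ) ≤
      3 ^ q2.primeFactors.card * ((3 * (c₀ * X ^ (1 / 2 : ℝ)) / q2) *
        (3 * (c₀ * X ^ (2 / 3 : ℝ)) / q2)) := by
    intro j _
    set F := {b ∈ S | (b 3, b 2) = j} with hF
    have hinj : Set.InjOn (fun b : Fin 5 → ℤ => (b 1, b 0)) F := by
      intro b hb b' hb' h
      have hb1 := Finset.mem_filter.1 (Finset.mem_coe.1 hb)
      have hb2 := Finset.mem_filter.1 (Finset.mem_coe.1 hb')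
      have e1 := hb1.2.trans hb2.2.symm
      simp only [Prod.mk.injEq] at h e1
      have e4 := (hS b hb1.1).1.trans (hS b' hb2.1).1.symm
      funext i
      fin_cases i
      · exact h.2
      · exact h.1
      · exact e1.2
      · exact e1.1
      · exact e4
    rw [← Finset.card_image_of_injOn hinj]
    have := card_pairs q2 3 hq2 (fun p => {z : ZMod p × ZMod p | ∃ hp : p.Prime,
      ![z.2, z.1, (j.2 : ZMod p), (j.1 : ZMod p), 1] ∈ @Ind 4 p 2 ⟨hp⟩})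
      (fun p hp => ?_) (c₀ * X ^ (1 / 2 : ℝ)) (c₀ * X ^ (2 / 3 : ℝ)) (by positivity)
      (by positivity) (F.image (fun b => (b 1, b 0))) ?_
    · refine this.trans ?_
      push_cast
      gcongr
      · exact two_le_three hq20 b2le
      · exact two_le_three hq20 b2le'
    · have hpp := Nat.prime_of_mem_primeFactors hp
      have : Fact p.Prime := ⟨hpp⟩
      refine ⟨Set.toFinite _, ?_⟩
      refine le_trans (Set.ncard_le_ncard ?_ (Set.toFinite _))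
        (pairs4 p (hp4 p hp) (j.1 : ZMod p) (j.2 : ZMod p))
      rintro z ⟨_, hz⟩
      exact hz
    · intro z hz
      obtain ⟨b, hb, rfl⟩ := Finset.mem_image.1 hz
      obtain ⟨hbS, hbj⟩ := Finset.mem_filter.1 hb
      obtain ⟨g4, _, _, _, g1, g0, gi, _⟩ := hS b hbS
      refine ⟨g1, g0, fun p hp => ?_⟩
      obtain ⟨hpp, hin⟩ := gi p hp
      refine ⟨hpp, ?_⟩
      convert hin using 1
      rw [← hbj]
      funext i
      fin_cases i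
      · rfl
      · rfl
      · rfl
      · rfl
      · change (1 : ZMod p) = ((b 4 : ℤ) : ZMod p)
        rw [g4, Int.cast_one]
  -- number of (b3, b2)
  have hJc : (J.card : ℝ) ≤ 4 * (3 * (c₀ * X ^ (1 / 3 : ℝ)) / q3) := by
    have hmap : ∀ j ∈ J, j.1 ∈ Finset.Ico (0 : ℤ) 4 := by
      intro j hj
      obtain ⟨b, hb, rfl⟩ := Finset.mem_image.1 hj
      obtain ⟨_, g1, g2, _⟩ := hS b hb
      exact Finset.mem_Ico.2 ⟨g1, g2⟩
    rw [Finset.card_eq_sum_card_fiberwise hmap]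
    push_cast
    have hone : ∀ i ∈ Finset.Ico (0 : ℤ) 4, (({j ∈ J | j.1 = i}.card : ℕ) : ℝ) ≤
        3 * (c₀ * X ^ (1 / 3 : ℝ)) / q3 := by
      intro i _
      have hinj : Set.InjOn (Prod.snd : ℤ × ℤ → ℤ) ({j ∈ J | j.1 = i} : Finset (ℤ × ℤ)) := by
        intro j hj j' hj' h
        have e1 := (Finset.mem_filter.1 (Finset.mem_coe.1 hj)).2
        have e2 := (Finset.mem_filter.1 (Finset.mem_coe.1 hj')).2
        exact Prod.ext (e1.trans e2.symm) h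
      rw [← Finset.card_image_of_injOn hinj]
      refine (card_class q3 hq30 (c₀ * X ^ (1 / 3 : ℝ)) (by positivity) _ ?_ ?_).trans
        (two_le_three hq30 b3le)
      · intro x hx
        obtain ⟨j, hj, rfl⟩ := Finset.mem_image.1 hx
        obtain ⟨b, hb, rfl⟩ := Finset.mem_image.1 (Finset.mem_filter.1 hj).1
        exact (hS b hb).2.2.2.1
      · intro x hx y hy
        obtain ⟨j, hj, rfl⟩ := Finset.mem_image.1 hx
        obtain ⟨j', hj', rfl⟩ := Finset.mem_image.1 hy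
        obtain ⟨hjJ, hji⟩ := Finset.mem_filter.1 hj
        obtain ⟨hjJ', hji'⟩ := Finset.mem_filter.1 hj'
        obtain ⟨b, hb, rfl⟩ := Finset.mem_image.1 hjJ
        obtain ⟨b', hb', rfl⟩ := Finset.mem_image.1 hjJ'
        simp only at hji hji' ⊢
        refine dvd_of_primeFactors hq3s fun p hp => ?_
        have hp2 : p ∈ q2.primeFactors := Nat.primeFactors_mono hq3 hq20.ne' hp
        have h4p := hp4 p hp2
        obtain ⟨hpp, hin⟩ := (hS b hb).2.2.2.2.2.2.2 p hp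
        obtain ⟨_, hin'⟩ := (hS b' hb').2.2.2.2.2.2.2 p hp
        have : Fact p.Prime := ⟨hpp⟩
        have key : ∀ c ∈ S, InInd (n := 4) c p 3 →
            8 * ((c 2 : ℤ) : ZMod p) = 3 * ((c 3 : ℤ) : ZMod p) ^ 2 := by
          intro c hc' hcin
          obtain ⟨_, hcin⟩ := hcin
          refine index3 p _ _ ((c 1 : ℤ) : ZMod p) ((c 0 : ℤ) : ZMod p) ?_
          convert hcin using 1
          funext i
          fin_cases i
          · rfl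
          · rfl
          · rfl
          · rfl
          · change (1 : ZMod p) = ((c 4 : ℤ) : ZMod p)
            rw [(hS c hc').1, Int.cast_one]
        have k1 := key b hb ⟨hpp, hin⟩
        have k2 := key b' hb' ⟨hpp, hin'⟩
        rw [hji] at k1
        rw [hji'] at k2
        have h8 : (8 : ZMod p) ≠ 0 := by
          have : ((8 : ℕ) : ZMod p) ≠ 0 := by
            rw [Ne, ZMod.natCast_eq_zero_iff]
            intro hd
            have : p ∣ 2 := hpp.dvd_of_dvd_pow (n := 3) (by norm_num; exact hd)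
            have := Nat.le_of_dvd (by norm_num) this
            omega
          exact_mod_cast this
        rw [← ZMod.intCast_zmod_eq_zero_iff_dvd, Int.cast_sub, sub_eq_zero]
        exact mul_left_cancel₀ h8 (k1.trans k2.symm)
    calc ∑ i ∈ Finset.Ico (0 : ℤ) 4, (({j ∈ J | j.1 = i}.card : ℕ) : ℝ)
        ≤ ∑ _i ∈ Finset.Ico (0 : ℤ) 4, 3 * (c₀ * X ^ (1 / 3 : ℝ)) / q3 := Finset.sum_le_sum hone
      _ = _ := by rw [Finset.sum_const, nsmul_eq_mul]; simp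
  have hsum : (S.card : ℝ) = ∑ j ∈ J, (({b ∈ S | (b 3, b 2) = j}.card : ℕ) : ℝ) := by
    have := Finset.card_eq_sum_card_image (fun b : Fin 5 → ℤ => (b 3, b 2)) S
    rw [this]
    push_cast
    rfl
  have hprod : X ^ (1 / 3 : ℝ) * X ^ (1 / 2 : ℝ) * X ^ (2 / 3 : ℝ) = X * X ^ (1 / 2 : ℝ) := by
    rw [← Real.rpow_add hX0, ← Real.rpow_add hX0, ← Real.rpow_one_add' hX0.le (by norm_num)]
    norm_num
  calc (S.card : ℝ) = ∑ j ∈ J, (({b ∈ S | (b 3, b 2) = j}.card : ℕ) : ℝ) := hsum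
    _ ≤ ∑ _j ∈ J, 3 ^ q2.primeFactors.card * ((3 * (c₀ * X ^ (1 / 2 : ℝ)) / q2) *
        (3 * (c₀ * X ^ (2 / 3 : ℝ)) / q2)) := Finset.sum_le_sum hfib
    _ = J.card * (3 ^ q2.primeFactors.card * ((3 * (c₀ * X ^ (1 / 2 : ℝ)) / q2) *
        (3 * (c₀ * X ^ (2 / 3 : ℝ)) / q2))) := by rw [Finset.sum_const, nsmul_eq_mul]
    _ ≤ (4 * (3 * (c₀ * X ^ (1 / 3 : ℝ)) / q3)) * (3 ^ q2.primeFactors.card *
        ((3 * (c₀ * X ^ (1 / 2 : ℝ)) / q2) * (3 * (c₀ * X ^ (2 / 3 : ℝ)) / q2))) := by gcongr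
    _ = 108 * c₀ ^ 3 * 3 ^ q2.primeFactors.card *
        (X ^ (1 / 3 : ℝ) * X ^ (1 / 2 : ℝ) * X ^ (2 / 3 : ℝ)) / ((q2 : ℝ) ^ 2 * q3) := by
        field_simp
        ring
    _ = 108 * c₀ ^ 3 * 3 ^ q2.primeFactors.card * X ^ (1 / 2 : ℝ) *
        (X / ((q2 : ℝ) ^ 2 * q3)) := by rw [hprod]; ring
    _ ≤ 108 * c₀ ^ 3 * 3 ^ q2.primeFactors.card * X ^ (1 / 2 : ℝ) * c₀ := by
        gcongr
        rw [div_le_iff₀ (by positivity)]
        exact h1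
    _ = _ := by ring

end RC

open RC in
theorem refined4_of
    (hS1 : ∀ (B ε : ℝ), 1 ≤ B → 0 < ε → ∃ C : ℝ, 1 ≤ C ∧
      ∀ D : ℕ, D ≠ 0 → B ^ D.primeFactors.card ≤ C * (D : ℝ) ^ ε ∧
        B ^ D.primeFactors.card * (D.divisors.card : ℝ) ≤ C * (D : ℝ) ^ ε)
    (ε c₀ : ℝ) (hε : 0 < ε) (hc : 1 ≤ c₀) : ∃ C : ℝ, 0 < C ∧ ∀ X : ℝ, 1 ≤ X →
    ∀ T : Finset (Fin 5 → ℤ), (∀ b ∈ T, b 4 = 1 ∧ 0 ≤ b 3 ∧ b 3 < 4 ∧
      |(b 2 : ℝ)| ≤ c₀ * X ^ (1 / 3 : ℝ) ∧ |(b 1 : ℝ)| ≤ c₀ * X ^ (1 / 2 : ℝ) ∧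
      |(b 0 : ℝ)| ≤ c₀ * X ^ (2 / 3 : ℝ) ∧
      ∃ (P : Finset ℕ) (v : ℕ → ℕ), (∀ p ∈ P, p.Prime ∧ 4 < p ∧ 2 ≤ v p ∧ v p ≤ 3 ∧
        InInd (n := 4) b p (v p)) ∧ X ≤ c₀ * ∏ p ∈ P, (p : ℝ) ^ v p ∧
        ∏ p ∈ P, (p : ℝ) ^ v p ≤ c₀ * X) →
      (T.card : ℝ) ≤ C * X ^ (1 + ε) := by
  classical
  obtain ⟨C1, hC1, hC1'⟩ := hS1 3 ε (by norm_num) hε
  refine ⟨c₀ * (C1 * c₀ ^ ε) * (108 * c₀ ^ 4), by positivity, ?_⟩
  intro X hX T hT
  have hX0 : (0 : ℝ) < X := by linarith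
  have hc0 : (0 : ℝ) < c₀ := by linarith
  -- choose the moduli
  have hq : ∀ b ∈ T, ∃ q : ℕ × ℕ, Squarefree q.1 ∧ q.2 ∣ q.1 ∧
      (∀ p ∈ q.1.primeFactors, 4 < p) ∧ X ≤ c₀ * ((q.1 : ℝ) ^ 2 * q.2) ∧
      (q.1 : ℝ) ^ 2 * q.2 ≤ c₀ * X ∧ (∀ p ∈ q.1.primeFactors, InInd (n := 4) b p 2) ∧
      ∀ p ∈ q.2.primeFactors, InInd (n := 4) b p 3 := by
    intro b hb
    obtain ⟨_, _, _, _, _, _, P, v, hP, hP1, hP2⟩ := hT b hb
    have hprod : ∏ p ∈ P, (p : ℝ) ^ v p =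
        ((∏ p ∈ P, p : ℕ) : ℝ) ^ 2 * ((∏ p ∈ P.filter (fun p => v p = 3), p : ℕ) : ℝ) := by
      push_cast
      rw [Finset.prod_filter, ← Finset.prod_pow, ← Finset.prod_mul_distrib]
      refine Finset.prod_congr rfl fun p hp => ?_
      obtain ⟨_, _, h2, h3, _⟩ := hP p hp
      rcases (by omega : v p = 2 ∨ v p = 3) with h | h
      · rw [h]; simp
      · rw [h]; simp; ring
    have hpr : ∀ p ∈ P, p.Prime := fun p hp => (hP p hp).1
    have hf1 : (∏ p ∈ P, p).primeFactors = P := Nat.primeFactors_prod hpr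
    have hf2 : (∏ p ∈ P.filter (fun p => v p = 3), p).primeFactors =
        P.filter (fun p => v p = 3) :=
      Nat.primeFactors_prod fun p hp => hpr p (Finset.mem_filter.1 hp).1
    refine ⟨(∏ p ∈ P, p, ∏ p ∈ P.filter (fun p => v p = 3), p), ?_, ?_, ?_, ?_, ?_, ?_, ?_⟩
    · exact Finset.squarefree_prod_of_pairwise_isCoprime
        (fun p hp q hq hpq =>
          Nat.coprime_iff_isRelPrime.1 ((Nat.coprime_primes (hpr p hp) (hpr q hq)).2 hpq))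
        (fun p hp => (hpr p hp).squarefree)
    · exact Finset.prod_dvd_prod_of_subset _ _ _ (Finset.filter_subset _ _)
    · intro p hp
      rw [hf1] at hp
      exact (hP p hp).2.1
    · rw [← hprod]; exact hP1
    · rw [← hprod]; exact hP2
    · intro p hp
      rw [hf1] at hp
      exact InInd.mono (hP p hp).2.2.2.2 (hP p hp).2.2.1
    · intro p hp
      rw [hf2] at hp
      obtain ⟨h1, h2⟩ := Finset.mem_filter.1 hp
      have := (hP p h1).2.2.2.2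
      rwa [h2] at this
  choose! Q hQ using hq
  set N : ℕ := ⌊c₀ * X ^ (1 / 2 : ℝ)⌋₊ with hN
  have hX12 : (X ^ (1 / 2 : ℝ)) ^ 2 = X := by
    rw [← Real.rpow_natCast, ← Real.rpow_mul hX0.le]; norm_num
  have hp12 : (0 : ℝ) < X ^ (1 / 2 : ℝ) := Real.rpow_pos_of_pos hX0 _
  have hNle : (N : ℝ) ≤ c₀ * X ^ (1 / 2 : ℝ) := Nat.floor_le (by positivity)
  have hmem1 : ∀ b ∈ T, (Q b).1 ∈ Finset.Icc 1 N := by
    intro b hb
    obtain ⟨g1, g2, _, _, g5, _, _⟩ := hQ b hb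
    have hq20 : 0 < (Q b).1 := Nat.pos_of_ne_zero g1.ne_zero
    have hq30 : 0 < (Q b).2 := Nat.pos_of_dvd_of_pos g2 hq20
    have r3' : (1 : ℝ) ≤ (Q b).2 := by exact_mod_cast hq30
    refine Finset.mem_Icc.2 ⟨hq20, Nat.le_floor ?_⟩
    refine le_of_pow_le_pow_left₀ (n := 2) (by norm_num) (by positivity) ?_
    rw [mul_pow, hX12]
    calc ((Q b).1 : ℝ) ^ 2 ≤ ((Q b).1 : ℝ) ^ 2 * (Q b).2 :=
          le_mul_of_one_le_right (by positivity) r3'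
      _ ≤ c₀ * X := g5
      _ ≤ c₀ ^ 2 * X := by
          have : c₀ ≤ c₀ ^ 2 := le_self_pow₀ hc (by norm_num)
          gcongr
  have hone : ∀ q ∈ Finset.Icc 1 N, (({b ∈ T | (Q b).1 = q}.card : ℕ) : ℝ) ≤
      (C1 * c₀ ^ ε) * (108 * c₀ ^ 4) * X ^ (1 / 2 : ℝ) * X ^ ε := by
    intro q hq
    obtain ⟨hq1, hqN⟩ := Finset.mem_Icc.1 hq
    have hmem2 : ∀ b ∈ ({b ∈ T | (Q b).1 = q} : Finset _), (Q b).2 ∈ q.divisors := by
      intro b hb
      obtain ⟨hbT, rfl⟩ := Finset.mem_filter.1 hb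
      exact Nat.mem_divisors.2 ⟨(hQ b hbT).2.1, by omega⟩
    rw [Finset.card_eq_sum_card_fiberwise hmem2]
    push_cast
    have htwo : ∀ q3 ∈ q.divisors,
        (({b ∈ ({b ∈ T | (Q b).1 = q} : Finset _) | (Q b).2 = q3}.card : ℕ) : ℝ) ≤
        108 * c₀ ^ 4 * 3 ^ q.primeFactors.card * X ^ (1 / 2 : ℝ) := by
      intro q3 _
      rcases Finset.eq_empty_or_nonempty
        ({b ∈ ({b ∈ T | (Q b).1 = q} : Finset _) | (Q b).2 = q3} : Finset _) with h | ⟨b₀, hb₀⟩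
      · rw [h, Finset.card_empty, Nat.cast_zero]
        positivity
      · obtain ⟨hb1, e2⟩ := Finset.mem_filter.1 hb₀
        obtain ⟨hbT, e1⟩ := Finset.mem_filter.1 hb1
        obtain ⟨g1, g2, g3, g4, g5, _, _⟩ := hQ b₀ hbT
        rw [e1] at g1 g2 g3 g4 g5
        rw [e2] at g2 g4 g5
        refine fiber4 c₀ X hc hX q q3 g1 g2 g3 g4 g5 _ ?_
        intro b hb
        obtain ⟨hb1', e2'⟩ := Finset.mem_filter.1 hb
        obtain ⟨hbT', e1'⟩ := Finset.mem_filter.1 hb1'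
        obtain ⟨_, _, _, _, _, g6, g7⟩ := hQ b hbT'
        obtain ⟨t1, t2, t3, t4, t5, t6, _⟩ := hT b hbT'
        rw [e1'] at g6
        rw [e2'] at g7
        exact ⟨t1, t2, t3, t4, t5, t6, g6, g7⟩
    calc ∑ q3 ∈ q.divisors,
          (({b ∈ ({b ∈ T | (Q b).1 = q} : Finset _) | (Q b).2 = q3}.card : ℕ) : ℝ)
        ≤ ∑ _q3 ∈ q.divisors, 108 * c₀ ^ 4 * 3 ^ q.primeFactors.card * X ^ (1 / 2 : ℝ) :=
          Finset.sum_le_sum htwo
      _ = (3 ^ q.primeFactors.card * (q.divisors.card : ℝ)) * (108 * c₀ ^ 4) *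
          X ^ (1 / 2 : ℝ) := by rw [Finset.sum_const, nsmul_eq_mul]; ring
      _ ≤ (C1 * (q : ℝ) ^ ε) * (108 * c₀ ^ 4) * X ^ (1 / 2 : ℝ) := by
          exact mul_le_mul_of_nonneg_right (mul_le_mul_of_nonneg_right
            (hC1' q (by omega)).2 (by positivity)) (by positivity)
      _ ≤ (C1 * (c₀ * X) ^ ε) * (108 * c₀ ^ 4) * X ^ (1 / 2 : ℝ) := by
          have hC0 : (0 : ℝ) < C1 := by linarith
          have : (q : ℝ) ≤ c₀ * X := by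
            calc (q : ℝ) ≤ N := by exact_mod_cast hqN
              _ ≤ c₀ * X ^ (1 / 2 : ℝ) := hNle
              _ ≤ c₀ * X := by
                  refine mul_le_mul_of_nonneg_left ?_ hc0.le
                  calc X ^ (1 / 2 : ℝ) ≤ X ^ (1 : ℝ) :=
                        Real.rpow_le_rpow_of_exponent_le hX (by norm_num)
                    _ = X := Real.rpow_one X
          gcongr
      _ = _ := by
          rw [Real.mul_rpow hc0.le hX0.le]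
          ring
  rw [Finset.card_eq_sum_card_fiberwise hmem1]
  push_cast
  have hC0 : (0 : ℝ) < C1 := by linarith
  calc ∑ q ∈ Finset.Icc 1 N, (({b ∈ T | (Q b).1 = q}.card : ℕ) : ℝ)
      ≤ ∑ _q ∈ Finset.Icc 1 N, (C1 * c₀ ^ ε) * (108 * c₀ ^ 4) * X ^ (1 / 2 : ℝ) * X ^ ε :=
        Finset.sum_le_sum hone
    _ = N * ((C1 * c₀ ^ ε) * (108 * c₀ ^ 4) * X ^ (1 / 2 : ℝ) * X ^ ε) := by
        rw [Finset.sum_const, nsmul_eq_mul, Nat.card_Icc]; simp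
    _ ≤ (c₀ * X ^ (1 / 2 : ℝ)) * ((C1 * c₀ ^ ε) * (108 * c₀ ^ 4) * X ^ (1 / 2 : ℝ) * X ^ ε) := by
        gcongr
    _ = c₀ * (C1 * c₀ ^ ε) * (108 * c₀ ^ 4) * ((X ^ (1 / 2 : ℝ)) ^ 2 * X ^ ε) := by ring
    _ = _ := by rw [hX12, Real.rpow_add hX0, Real.rpow_one]

end Pool.Agent.Helper12.VW
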