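import Pool.Agent.Helper59.VW.R4

/-!
# VW-R5: refined count of quintic polynomials
-/

open Polynomial

namespace Pool.Agent.Helper12.VW

namespace RC

theorem fiber5 (c₀ X : ℝ) (hc : 1 ≤ c₀) (hX : 1 ≤ X) (q : ℕ) (hq : Squarefree q)
    (hp5 : ∀ p ∈ q.primeFactors, 5 < p) (h2 : (q : ℝ) ≤ c₀ * X ^ (1 / 2 : ℝ))
    (S : Finset (Fin 6 → ℤ))
    (hS : ∀ b ∈ S, b 5 = 1 ∧ 0 ≤ b 4 ∧ b 4 < 5 ∧
      |(b 3 : ℝ)| ≤ c₀ * X ^ (1 / 4 : ℝ) ∧ |(b 2 : ℝ)| ≤ c₀ * X ^ (3 / 8 : ℝ) ∧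
      |(b 1 : ℝ)| ≤ c₀ * X ^ (1 / 2 : ℝ) ∧ |(b 0 : ℝ)| ≤ c₀ * X ^ (5 / 8 : ℝ) ∧
      ∀ p ∈ q.primeFactors, InInd (n := 5) b p 2) :
    (S.card : ℝ) ≤ 405 * c₀ ^ 4 * 6 ^ q.primeFactors.card * X ^ (7 / 4 : ℝ) / (q : ℝ) ^ 2 := by
  classical
  have hq0 : 0 < q := Nat.pos_of_ne_zero hq.ne_zero
  have r2 : (0 : ℝ) < q := by exact_mod_cast hq0
  have hX0 : (0 : ℝ) < X := by linarith
  have hc0 : (0 : ℝ) < c₀ := by linarith
  have hp14 : (0 : ℝ) < X ^ (1 / 4 : ℝ) := Real.rpow_pos_of_pos hX0 _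
  have hp38 : (0 : ℝ) < X ^ (3 / 8 : ℝ) := Real.rpow_pos_of_pos hX0 _
  have hp12 : (0 : ℝ) < X ^ (1 / 2 : ℝ) := Real.rpow_pos_of_pos hX0 _
  have hp58 : (0 : ℝ) < X ^ (5 / 8 : ℝ) := Real.rpow_pos_of_pos hX0 _
  have h2' : (q : ℝ) ≤ c₀ * X ^ (5 / 8 : ℝ) := h2.trans (mul_le_mul_of_nonneg_left
      (Real.rpow_le_rpow_of_exponent_le hX (by norm_num)) hc0.le)
  set J := S.image (fun b => (b 4, b 3, b 2)) with hJ
  have hfib : ∀ j ∈ J, (({b ∈ S | (b 4, b 3, b 2) = j}.card : ℕ) : ℝ) ≤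
      6 ^ q.primeFactors.card * ((3 * (c₀ * X ^ (1 / 2 : ℝ)) / q) *
        (3 * (c₀ * X ^ (5 / 8 : ℝ)) / q)) := by
    intro j _
    set F := {b ∈ S | (b 4, b 3, b 2) = j} with hF
    have hinj : Set.InjOn (fun b : Fin 6 → ℤ => (b 1, b 0)) F := by
      intro b hb b' hb' h
      have hb1 := Finset.mem_filter.1 (Finset.mem_coe.1 hb)
      have hb2 := Finset.mem_filter.1 (Finset.mem_coe.1 hb')
      have e1 := hb1.2.trans hb2.2.symm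
      simp only [Prod.mk.injEq] at h e1
      have e4 := (hS b hb1.1).1.trans (hS b' hb2.1).1.symm
      funext i
      fin_cases i
      · exact h.2
      · exact h.1
      · exact e1.2.2
      · exact e1.2.1
      · exact e1.1
      · exact e4
    rw [← Finset.card_image_of_injOn hinj]
    have := card_pairs q 6 hq (fun p => {z : ZMod p × ZMod p | ∃ hp : p.Prime,
      ![z.2, z.1, (j.2.2 : ZMod p), (j.2.1 : ZMod p), (j.1 : ZMod p), 1] ∈ @Ind 5 p 2 ⟨hp⟩})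
      (fun p hp => ?_) (c₀ * X ^ (1 / 2 : ℝ)) (c₀ * X ^ (5 / 8 : ℝ)) (by positivity)
      (by positivity) (F.image (fun b => (b 1, b 0))) ?_
    · refine this.trans ?_
      push_cast
      gcongr
      · exact two_le_three hq0 h2
      · exact two_le_three hq0 h2'
    · have hpp := Nat.prime_of_mem_primeFactors hp
      have : Fact p.Prime := ⟨hpp⟩
      refine ⟨Set.toFinite _, ?_⟩
      refine le_trans (Set.ncard_le_ncard ?_ (Set.toFinite _))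
        (pairs5 p (hp5 p hp) (j.1 : ZMod p) (j.2.1 : ZMod p) (j.2.2 : ZMod p))
      rintro z ⟨_, hz⟩
      exact hz
    · intro z hz
      obtain ⟨b, hb, rfl⟩ := Finset.mem_image.1 hz
      obtain ⟨hbS, hbj⟩ := Finset.mem_filter.1 hb
      obtain ⟨g4, _, _, _, _, g1, g0, gi⟩ := hS b hbS
      refine ⟨g1, g0, fun p hp => ?_⟩
      obtain ⟨hpp, hin⟩ := gi p hp
      refine ⟨hpp, ?_⟩
      convert hin using 1
      rw [← hbj]
      funext i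
      fin_cases i
      · rfl
      · rfl
      · rfl
      · rfl
      · rfl
      · change (1 : ZMod p) = ((b 5 : ℤ) : ZMod p)
        rw [g4, Int.cast_one]
  -- number of (b4, b3, b2)
  have hX14 : 1 ≤ c₀ * X ^ (1 / 4 : ℝ) := by
    have : 1 ≤ X ^ (1 / 4 : ℝ) := Real.one_le_rpow hX (by norm_num)
    exact one_le_mul_of_one_le_of_one_le hc this
  have hX38 : 1 ≤ c₀ * X ^ (3 / 8 : ℝ) := by
    have : 1 ≤ X ^ (3 / 8 : ℝ) := Real.one_le_rpow hX (by norm_num)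
    exact one_le_mul_of_one_le_of_one_le hc this
  have hJc : (J.card : ℝ) ≤ 5 * ((3 * (c₀ * X ^ (1 / 4 : ℝ))) * (3 * (c₀ * X ^ (3 / 8 : ℝ)))) := by
    have hsub : J ⊆ (Finset.Ico (0 : ℤ) 5) ×ˢ ((J.image fun j => j.2.1) ×ˢ
        (J.image fun j => j.2.2)) := by
      intro j hj
      obtain ⟨b, hb, rfl⟩ := Finset.mem_image.1 hj
      obtain ⟨_, g1, g2, _⟩ := hS b hb
      exact Finset.mem_product.2 ⟨Finset.mem_Ico.2 ⟨g1, g2⟩, Finset.mem_product.2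
        ⟨Finset.mem_image_of_mem (fun j : ℤ × ℤ × ℤ => j.2.1) hj,
          Finset.mem_image_of_mem (fun j : ℤ × ℤ × ℤ => j.2.2) hj⟩⟩
    have k1 : ((J.image fun j => j.2.1).card : ℝ) ≤ 3 * (c₀ * X ^ (1 / 4 : ℝ)) := by
      have := card_class 1 one_pos (c₀ * X ^ (1 / 4 : ℝ)) (by positivity)
        (J.image fun j => j.2.1) ?_ ?_
      · refine this.trans ?_
        have := two_le_three (q := 1) one_pos (M := c₀ * X ^ (1 / 4 : ℝ)) (by simpa using hX14)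
        simpa using this
      · intro x hx
        obtain ⟨j, hj, rfl⟩ := Finset.mem_image.1 hx
        obtain ⟨b, hb, rfl⟩ := Finset.mem_image.1 hj
        exact (hS b hb).2.2.2.1
      · intro x _ y _
        simp
    have k2 : ((J.image fun j => j.2.2).card : ℝ) ≤ 3 * (c₀ * X ^ (3 / 8 : ℝ)) := by
      have := card_class 1 one_pos (c₀ * X ^ (3 / 8 : ℝ)) (by positivity)
        (J.image fun j => j.2.2) ?_ ?_
      · refine this.trans ?_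
        have := two_le_three (q := 1) one_pos (M := c₀ * X ^ (3 / 8 : ℝ)) (by simpa using hX38)
        simpa using this
      · intro x hx
        obtain ⟨j, hj, rfl⟩ := Finset.mem_image.1 hx
        obtain ⟨b, hb, rfl⟩ := Finset.mem_image.1 hj
        exact (hS b hb).2.2.2.2.1
      · intro x _ y _
        simp
    have := Finset.card_le_card hsub
    rw [Finset.card_product, Finset.card_product, Int.card_Ico] at this
    calc (J.card : ℝ) ≤ ((5 * ((J.image fun j => j.2.1).card *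
          (J.image fun j => j.2.2).card) : ℕ) : ℝ) := by exact_mod_cast this
      _ = 5 * (((J.image fun j => j.2.1).card : ℝ) * ((J.image fun j => j.2.2).card : ℝ)) := by
          push_cast; ring
      _ ≤ _ := by gcongr
  have hsum : (S.card : ℝ) = ∑ j ∈ J, (({b ∈ S | (b 4, b 3, b 2) = j}.card : ℕ) : ℝ) := by
    have := Finset.card_eq_sum_card_image (fun b : Fin 6 → ℤ => (b 4, b 3, b 2)) S
    rw [this]
    push_cast
    rfl
  have hprod : X ^ (1 / 4 : ℝ) * X ^ (3 / 8 : ℝ) * X ^ (1 / 2 : ℝ) * X ^ (5 / 8 : ℝ) =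
      X ^ (7 / 4 : ℝ) := by
    rw [← Real.rpow_add hX0, ← Real.rpow_add hX0, ← Real.rpow_add hX0]
    norm_num
  calc (S.card : ℝ) = ∑ j ∈ J, (({b ∈ S | (b 4, b 3, b 2) = j}.card : ℕ) : ℝ) := hsum
    _ ≤ ∑ _j ∈ J, 6 ^ q.primeFactors.card * ((3 * (c₀ * X ^ (1 / 2 : ℝ)) / q) *
        (3 * (c₀ * X ^ (5 / 8 : ℝ)) / q)) := Finset.sum_le_sum hfib
    _ = J.card * (6 ^ q.primeFactors.card * ((3 * (c₀ * X ^ (1 / 2 : ℝ)) / q) *
        (3 * (c₀ * X ^ (5 / 8 : ℝ)) / q))) := by rw [Finset.sum_const, nsmul_eq_mul]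
    _ ≤ (5 * ((3 * (c₀ * X ^ (1 / 4 : ℝ))) * (3 * (c₀ * X ^ (3 / 8 : ℝ))))) *
        (6 ^ q.primeFactors.card * ((3 * (c₀ * X ^ (1 / 2 : ℝ)) / q) *
          (3 * (c₀ * X ^ (5 / 8 : ℝ)) / q))) := by gcongr
    _ = 405 * c₀ ^ 4 * 6 ^ q.primeFactors.card *
        (X ^ (1 / 4 : ℝ) * X ^ (3 / 8 : ℝ) * X ^ (1 / 2 : ℝ) * X ^ (5 / 8 : ℝ)) /
          (q : ℝ) ^ 2 := by
        field_simp
        ring
    _ = _ := by rw [hprod]

/-- tail of the series of inverse squares -/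
theorem sum_inv_sq (Y : ℝ) (hY : 0 < Y) (I : Finset ℕ) (hI : ∀ q ∈ I, 1 ≤ q ∧ Y ≤ q) :
    ∑ q ∈ I, 1 / (q : ℝ) ^ 2 ≤ 2 / Y := by
  classical
  set m : ℕ := max 1 ⌈Y⌉₊ with hm
  have hm1 : 1 ≤ m := le_max_left _ _
  have hmY : Y ≤ m := (Nat.le_ceil Y).trans (by exact_mod_cast le_max_right _ _)
  obtain ⟨K, hK⟩ : ∃ K, ∀ q ∈ I, q < m + K := ⟨I.sup id + 1, fun q hq => by
    have : q ≤ I.sup id := Finset.le_sup (f := id) hq
    omega⟩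
  have hsub : I ⊆ (Finset.range K).image (fun i => m + i) := by
    intro q hq
    have h1 : m ≤ q := max_le (hI q hq).1 (Nat.ceil_le.2 (hI q hq).2)
    exact Finset.mem_image.2 ⟨q - m, Finset.mem_range.2 (by have := hK q hq; omega), by omega⟩
  calc ∑ q ∈ I, 1 / (q : ℝ) ^ 2
      ≤ ∑ q ∈ (Finset.range K).image (fun i => m + i), 1 / (q : ℝ) ^ 2 :=
        Finset.sum_le_sum_of_subset_of_nonneg hsub fun q _ _ => by positivity
    _ = ∑ i ∈ Finset.range K, 1 / ((m + i : ℕ) : ℝ) ^ 2 := by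
        rw [Finset.sum_image]
        intro x _ y _ h
        simpa using h
    _ ≤ ∑ i ∈ Finset.range K, (2 / ((m + i : ℕ) : ℝ) - 2 / ((m + (i + 1) : ℕ) : ℝ)) := by
        refine Finset.sum_le_sum fun i _ => ?_
        have h1 : (1 : ℝ) ≤ ((m + i : ℕ) : ℝ) := by exact_mod_cast (by omega : 1 ≤ m + i)
        have h2 : ((m + (i + 1) : ℕ) : ℝ) = ((m + i : ℕ) : ℝ) + 1 := by push_cast; ring
        rw [h2]
        set z : ℝ := ((m + i : ℕ) : ℝ)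
        rw [div_sub_div _ _ (by positivity) (by positivity), div_le_div_iff₀ (by positivity)
          (by positivity)]
        nlinarith
    _ = 2 / ((m + 0 : ℕ) : ℝ) - 2 / ((m + K : ℕ) : ℝ) :=
        Finset.sum_range_sub' (fun i => 2 / ((m + i : ℕ) : ℝ)) K
    _ ≤ 2 / (m : ℝ) := by
        rw [add_zero]
        have : 0 ≤ 2 / ((m + K : ℕ) : ℝ) := by positivity
        linarith
    _ ≤ 2 / Y := by gcongr

end RC

open RC in
theorem refined5_of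
    (hS1 : ∀ (B ε : ℝ), 1 ≤ B → 0 < ε → ∃ C : ℝ, 1 ≤ C ∧
      ∀ D : ℕ, D ≠ 0 → B ^ D.primeFactors.card ≤ C * (D : ℝ) ^ ε ∧
        B ^ D.primeFactors.card * (D.divisors.card : ℝ) ≤ C * (D : ℝ) ^ ε)
    (ε c₀ : ℝ) (hε : 0 < ε) (hc : 1 ≤ c₀) : ∃ C : ℝ, 0 < C ∧ ∀ X : ℝ, 1 ≤ X →
    ∀ T : Finset (Fin 6 → ℤ), (∀ b ∈ T, b 5 = 1 ∧ 0 ≤ b 4 ∧ b 4 < 5 ∧
      |(b 3 : ℝ)| ≤ c₀ * X ^ (1 / 4 : ℝ) ∧ |(b 2 : ℝ)| ≤ c₀ * X ^ (3 / 8 : ℝ) ∧
      |(b 1 : ℝ)| ≤ c₀ * X ^ (1 / 2 : ℝ) ∧ |(b 0 : ℝ)| ≤ c₀ * X ^ (5 / 8 : ℝ) ∧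
      ∃ (P : Finset ℕ) (v : ℕ → ℕ), (∀ p ∈ P, p.Prime ∧ 5 < p ∧ 2 ≤ v p ∧ v p ≤ 4 ∧
        InInd (n := 5) b p (v p)) ∧ X ≤ c₀ * ∏ p ∈ P, (p : ℝ) ^ v p ∧
        ∏ p ∈ P, (p : ℝ) ^ v p ≤ c₀ * X) →
      (T.card : ℝ) ≤ C * X ^ (3 / 2 + ε : ℝ) := by
  classical
  obtain ⟨C1, hC1, hC1'⟩ := hS1 6 ε (by norm_num) hε
  refine ⟨(C1 * c₀ ^ ε) * (405 * c₀ ^ 4) * (2 * c₀), by positivity, ?_⟩
  intro X hX T hT
  have hX0 : (0 : ℝ) < X := by linarith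
  have hc0 : (0 : ℝ) < c₀ := by linarith
  have hC0 : (0 : ℝ) < C1 := by linarith
  have hX12 : (X ^ (1 / 2 : ℝ)) ^ 2 = X := by
    rw [← Real.rpow_natCast, ← Real.rpow_mul hX0.le]; norm_num
  have hX14 : (X ^ (1 / 4 : ℝ)) ^ 4 = X := by
    rw [← Real.rpow_natCast, ← Real.rpow_mul hX0.le]; norm_num
  have hp12 : (0 : ℝ) < X ^ (1 / 2 : ℝ) := Real.rpow_pos_of_pos hX0 _
  have hp14 : (0 : ℝ) < X ^ (1 / 4 : ℝ) := Real.rpow_pos_of_pos hX0 _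
  -- choose the moduli
  have hq : ∀ b ∈ T, ∃ q : ℕ, Squarefree q ∧
      (∀ p ∈ q.primeFactors, 5 < p) ∧ X ^ (1 / 4 : ℝ) / c₀ ≤ q ∧
      (q : ℝ) ≤ c₀ * X ^ (1 / 2 : ℝ) ∧ (∀ p ∈ q.primeFactors, InInd (n := 5) b p 2) := by
    intro b hb
    obtain ⟨_, _, _, _, _, _, _, P, v, hP, hP1, hP2⟩ := hT b hb
    have hpr : ∀ p ∈ P, p.Prime := fun p hp => (hP p hp).1
    have hf1 : (∏ p ∈ P, p).primeFactors = P := Nat.primeFactors_prod hpr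
    have hq0 : 0 < ∏ p ∈ P, p := Finset.prod_pos fun p hp => (hpr p hp).pos
    have hlow : ((∏ p ∈ P, p : ℕ) : ℝ) ^ 2 ≤ ∏ p ∈ P, (p : ℝ) ^ v p := by
      push_cast
      rw [← Finset.prod_pow]
      refine Finset.prod_le_prod (fun p _ => by positivity) fun p hp => ?_
      exact pow_le_pow_right₀ (by exact_mod_cast (hpr p hp).one_le) (hP p hp).2.2.1
    have hup : ∏ p ∈ P, (p : ℝ) ^ v p ≤ ((∏ p ∈ P, p : ℕ) : ℝ) ^ 4 := by
      push_cast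
      rw [← Finset.prod_pow]
      refine Finset.prod_le_prod (fun p _ => by positivity) fun p hp => ?_
      exact pow_le_pow_right₀ (by exact_mod_cast (hpr p hp).one_le) (hP p hp).2.2.2.1
    refine ⟨∏ p ∈ P, p, ?_, ?_, ?_, ?_, ?_⟩
    · exact Finset.squarefree_prod_of_pairwise_isCoprime
        (fun p hp q hq hpq =>
          Nat.coprime_iff_isRelPrime.1 ((Nat.coprime_primes (hpr p hp) (hpr q hq)).2 hpq))
        (fun p hp => (hpr p hp).squarefree)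
    · intro p hp
      rw [hf1] at hp
      exact (hP p hp).2.1
    · rw [div_le_iff₀ hc0]
      refine le_of_pow_le_pow_left₀ (n := 4) (by norm_num) (by positivity) ?_
      rw [hX14, mul_pow]
      calc X ≤ c₀ * ∏ p ∈ P, (p : ℝ) ^ v p := hP1
        _ ≤ c₀ * ((∏ p ∈ P, p : ℕ) : ℝ) ^ 4 := by gcongr
        _ ≤ c₀ ^ 4 * ((∏ p ∈ P, p : ℕ) : ℝ) ^ 4 := by
            have : c₀ ≤ c₀ ^ 4 := le_self_pow₀ hc (by norm_num)
            gcongr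
        _ = _ := by ring
    · refine le_of_pow_le_pow_left₀ (n := 2) (by norm_num) (by positivity) ?_
      rw [mul_pow, hX12]
      calc ((∏ p ∈ P, p : ℕ) : ℝ) ^ 2 ≤ ∏ p ∈ P, (p : ℝ) ^ v p := hlow
        _ ≤ c₀ * X := hP2
        _ ≤ c₀ ^ 2 * X := by
            have : c₀ ≤ c₀ ^ 2 := le_self_pow₀ hc (by norm_num)
            gcongr
    · intro p hp
      rw [hf1] at hp
      exact InInd.mono (hP p hp).2.2.2.2 (hP p hp).2.2.1
  choose! Q hQ using hq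
  have hone : ∀ q ∈ T.image Q, (({b ∈ T | Q b = q}.card : ℕ) : ℝ) ≤
      (C1 * c₀ ^ ε) * (405 * c₀ ^ 4) * X ^ (7 / 4 : ℝ) * X ^ ε * (1 / (q : ℝ) ^ 2) := by
    intro q hq
    obtain ⟨b₀, hb₀, rfl⟩ := Finset.mem_image.1 hq
    obtain ⟨g1, g2, _, g4, _⟩ := hQ b₀ hb₀
    have hq0 : 0 < Q b₀ := Nat.pos_of_ne_zero g1.ne_zero
    have r2 : (0 : ℝ) < (Q b₀ : ℝ) := by exact_mod_cast hq0
    have := fiber5 c₀ X hc hX (Q b₀) g1 g2 g4 {b ∈ T | Q b = Q b₀} (by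
      intro b hb
      obtain ⟨hbT', e1'⟩ := Finset.mem_filter.1 hb
      obtain ⟨_, _, _, _, g6⟩ := hQ b hbT'
      obtain ⟨t1, t2, t3, t4, t5, t6, t7, _⟩ := hT b hbT'
      rw [e1'] at g6
      exact ⟨t1, t2, t3, t4, t5, t6, t7, g6⟩)
    refine this.trans ?_
    have h6 : (6 : ℝ) ^ (Q b₀).primeFactors.card ≤ C1 * (c₀ * X) ^ ε := by
      refine ((hC1' (Q b₀) hq0.ne').1).trans ?_
      have : (Q b₀ : ℝ) ≤ c₀ * X := by
        calc (Q b₀ : ℝ) ≤ c₀ * X ^ (1 / 2 : ℝ) := g4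
          _ ≤ c₀ * X := by
              refine mul_le_mul_of_nonneg_left ?_ hc0.le
              calc X ^ (1 / 2 : ℝ) ≤ X ^ (1 : ℝ) :=
                    Real.rpow_le_rpow_of_exponent_le hX (by norm_num)
                _ = X := Real.rpow_one X
      gcongr
    rw [Real.mul_rpow hc0.le hX0.le] at h6
    calc 405 * c₀ ^ 4 * 6 ^ (Q b₀).primeFactors.card * X ^ (7 / 4 : ℝ) / (Q b₀ : ℝ) ^ 2
        ≤ 405 * c₀ ^ 4 * (C1 * (c₀ ^ ε * X ^ ε)) * X ^ (7 / 4 : ℝ) / (Q b₀ : ℝ) ^ 2 := by gcongr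
      _ = _ := by ring
  rw [Finset.card_eq_sum_card_image Q T]
  push_cast
  calc ∑ q ∈ T.image Q, (({b ∈ T | Q b = q}.card : ℕ) : ℝ)
      ≤ ∑ q ∈ T.image Q, (C1 * c₀ ^ ε) * (405 * c₀ ^ 4) * X ^ (7 / 4 : ℝ) * X ^ ε *
        (1 / (q : ℝ) ^ 2) := Finset.sum_le_sum hone
    _ = (C1 * c₀ ^ ε) * (405 * c₀ ^ 4) * X ^ (7 / 4 : ℝ) * X ^ ε *
        ∑ q ∈ T.image Q, (1 / (q : ℝ) ^ 2) := by rw [Finset.mul_sum]
    _ ≤ (C1 * c₀ ^ ε) * (405 * c₀ ^ 4) * X ^ (7 / 4 : ℝ) * X ^ ε *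
        (2 / (X ^ (1 / 4 : ℝ) / c₀)) := by
        gcongr
        refine sum_inv_sq _ (by positivity) _ ?_
        intro q hq
        obtain ⟨b, hb, rfl⟩ := Finset.mem_image.1 hq
        exact ⟨Nat.one_le_iff_ne_zero.2 (hQ b hb).1.ne_zero, (hQ b hb).2.2.1⟩
    _ = (C1 * c₀ ^ ε) * (405 * c₀ ^ 4) * (2 * c₀) *
        (X ^ (7 / 4 : ℝ) * X ^ ε / X ^ (1 / 4 : ℝ)) := by field_simp
    _ = _ := by
        congr 1
        rw [← Real.rpow_add hX0, ← Real.rpow_sub hX0]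
        congr 1
        ring

end Pool.Agent.Helper12.VW
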