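import Pool.Agent.Helper59.VW.RCommon

/-!
# VW-R: root multisets and pairs of coefficients
-/

open Polynomial

namespace Pool.Agent.Helper12.VW

namespace RC

theorem coeff_toPoly {R : Type*} [Semiring R] {n : ℕ} (a : Fin (n + 1) → R) (i : Fin (n + 1)) :
    (toPoly a).coeff i = a i := by
  unfold toPoly
  rw [finsetSum_coeff, Finset.sum_eq_single i]
  · simp
  · intro j _ hj
    rw [coeff_C_mul, coeff_X_pow, if_neg, mul_zero]
    intro h
    exact hj (Fin.ext h.symm)
  · intro h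
    exact absurd (Finset.mem_univ i) h

theorem toPoly_injective {R : Type*} [Semiring R] {n : ℕ} {a b : Fin (n + 1) → R}
    (h : toPoly a = toPoly b) : a = b := by
  funext i
  rw [← coeff_toPoly a i, ← coeff_toPoly b i, h]

theorem map_toPoly {R S : Type*} [Semiring R] [Semiring S] (f : R →+* S) {n : ℕ}
    (a : Fin (n + 1) → R) : (toPoly a).map f = toPoly (fun i => f (a i)) := by
  unfold toPoly
  rw [Polynomial.map_sum]
  simp

theorem cast_ne_zero {p : ℕ} [Fact p.Prime] {F : Type*} [Field F] [Algebra (ZMod p) F] (m : ℕ)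
    (hmp : ∀ q, q.Prime → q ∣ m → q < p) : (m : F) ≠ 0 := by
  have h : CharP F p := by
    have := ZMod.charP p
    exact charP_of_injective_algebraMap (algebraMap (ZMod p) F).injective p
  intro h0
  rw [CharP.cast_eq_zero_iff F p] at h0
  exact lt_irrefl _ (hmp p Fact.out h0)

theorem card_le_of_image {α β : Type*} [DecidableEq β] (S : Set α) (f : α → β)
    (hf : Function.Injective f) (T : Finset β) (h : ∀ x ∈ S, f x ∈ T) : S.ncard ≤ T.card := by
  rw [← Set.ncard_image_of_injective S hf, ← Set.ncard_coe_finset]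
  refine Set.ncard_le_ncard ?_ (Finset.finite_toSet T)
  rintro _ ⟨x, hx, rfl⟩
  exact h x hx

theorem prod31 {F : Type*} [Field F] (r s : F) :
    (Multiset.map (fun a => X - C a) (r ::ₘ r ::ₘ r ::ₘ {s})).prod =
          toPoly ![r ^ 3 * s, -(r ^ 3 + 3 * r ^ 2 * s), 3 * r ^ 2 + 3 * r * s, -(3 * r + s), 1] := by
  simp only [toPoly, Fin.sum_univ_succ, Multiset.map_cons, Multiset.prod_cons,
    Multiset.map_singleton, Multiset.prod_singleton]
  simp [map_ofNat]
  ring

theorem prod22 {F : Type*} [Field F] (r s : F) :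
    (Multiset.map (fun a => X - C a) (r ::ₘ r ::ₘ s ::ₘ s ::ₘ 0)).prod =
          toPoly ![(r * s) ^ 2, -(2 * (r + s) * (r * s)), (r + s) ^ 2 + 2 * (r * s),
            -(2 * (r + s)), 1] := by
  simp only [toPoly, Fin.sum_univ_succ, Multiset.map_cons, Multiset.prod_cons,
    Multiset.map_zero, Multiset.prod_zero]
  simp [map_ofNat]
  ring

theorem prod4 {F : Type*} [Field F] (r : F) :
    (Multiset.map (fun a => X - C a) (Multiset.replicate 4 r)).prod =
      toPoly ![r ^ 4, -(4 * r ^ 3), 6 * r ^ 2, -(4 * r), 1] := by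
  simp only [toPoly, Fin.sum_univ_succ, Multiset.map_replicate, Multiset.prod_replicate]
  simp [map_ofNat]
  ring

theorem prod311 {F : Type*} [Field F] (r s t : F) :
    (Multiset.map (fun a => X - C a) (r ::ₘ r ::ₘ r ::ₘ {s, t})).prod =
          toPoly ![-(r ^ 3 * (s * t)), r ^ 3 * (s + t) + 3 * r ^ 2 * (s * t),
            -(r ^ 3 + 3 * r ^ 2 * (s + t) + 3 * r * (s * t)), 3 * r ^ 2 + 3 * r * (s + t) + s * t,
            -(3 * r + (s + t)), 1] := by
  simp only [toPoly, Fin.sum_univ_succ, Multiset.map_cons, Multiset.prod_cons,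
    Multiset.insert_eq_cons, Multiset.map_singleton, Multiset.prod_singleton]
  simp [map_ofNat]
  ring

theorem prod221 {F : Type*} [Field F] (r s t : F) :
    (Multiset.map (fun a => X - C a) (r ::ₘ r ::ₘ s ::ₘ s ::ₘ {t})).prod =
          toPoly ![-((r * s) ^ 2 * t), (r * s) ^ 2 + 2 * (r + s) * (r * s) * t,
            -(2 * (r + s) * (r * s) + t * ((r + s) ^ 2 + 2 * (r * s))),
            (r + s) ^ 2 + 2 * (r * s) + 2 * (r + s) * t,
            -(2 * (r + s) + t), 1] := by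
  simp only [toPoly, Fin.sum_univ_succ, Multiset.map_cons, Multiset.prod_cons,
    Multiset.map_singleton, Multiset.prod_singleton]
  simp [map_ofNat]
  ring

/-- quartic: pairs `(b1, b0)` -/
theorem core4 {K F : Type*} [Field K] [Field F] [DecidableEq F] (ι : K →+* F) (h2 : (2 : F) ≠ 0)
    (h6 : (6 : F) ≠ 0) (b3 b2 : K) : ∃ T : Finset (F × F), T.card ≤ 3 ∧ ∀ (b1 b0 : K)
      (m : Multiset F), m.card = 4 → m.toFinset.card + 2 ≤ 4 →
      (toPoly fun i => ι (![b0, b1, b2, b3, 1] i)) = (m.map fun a => X - C a).prod →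
      (ι b1, ι b0) ∈ T := by
  have hQ : (C 6 * X ^ 2 + C (3 * ι b3) * X + C (ι b2)).natDegree ≤ 2 := natDegree_quadratic_le
  have hQ0 : C 6 * X ^ 2 + C (3 * ι b3) * X + C (ι b2) ≠ 0 := by
    intro h
    have := leadingCoeff_quadratic (b := 3 * ι b3) (c := ι b2) h6
    rw [h, leadingCoeff_zero] at this
    exact h6 this.symm
  set Q : F[X] := C 6 * X ^ 2 + C (3 * ι b3) * X + C (ι b2) with hQd
  refine ⟨Q.roots.toFinset.image
      (fun r => (-(r ^ 3 + 3 * r ^ 2 * (-ι b3 - 3 * r)), r ^ 3 * (-ι b3 - 3 * r))) ∪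
    {(ι b3 * ((ι b2 - (ι b3 / 2) ^ 2) / 2), ((ι b2 - (ι b3 / 2) ^ 2) / 2) ^ 2)}, ?_, ?_⟩
  · refine (Finset.card_union_le _ _).trans ?_
    have e1 : (Q.roots.toFinset.image
      (fun r => (-(r ^ 3 + 3 * r ^ 2 * (-ι b3 - 3 * r)), r ^ 3 * (-ι b3 - 3 * r)))).card ≤ 2 :=
      Finset.card_image_le.trans ((Multiset.toFinset_card_le _).trans ((card_roots' Q).trans hQ))
    rw [Finset.card_singleton]
    omega
  · intro b1 b0 m hm hmc hmp
    rcases multi' m (by rw [hm]; exact hmc) with ⟨r, m', rfl⟩ | ⟨r, s, m', rfl⟩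
    · obtain ⟨s, rfl⟩ : ∃ s, m' = {s} := by
        rw [← Multiset.card_eq_one]
        simpa using hm
      have hv := toPoly_injective (hmp.trans (prod31 r s))
      have v0 : ι b0 = r ^ 3 * s := congrFun hv 0
      have v1 : ι b1 = -(r ^ 3 + 3 * r ^ 2 * s) := congrFun hv 1
      have v2 : ι b2 = 3 * r ^ 2 + 3 * r * s := congrFun hv 2
      have v3 : ι b3 = -(3 * r + s) := congrFun hv 3
      refine Finset.mem_union_left _ (Finset.mem_image.2 ⟨r, ?_, ?_⟩)
      · rw [Multiset.mem_toFinset, mem_roots hQ0, IsRoot]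
        simp only [hQd, eval_add, eval_mul, eval_C, eval_pow, eval_X, v2, v3]
        ring
      · rw [Prod.mk.injEq]
        constructor
        · rw [v1, v3]; ring
        · rw [v0, v3]; ring
    · obtain rfl : m' = 0 := by
        rw [← Multiset.card_eq_zero]
        simpa using hm
      have hv := toPoly_injective (hmp.trans (prod22 r s))
      have v0 : ι b0 = (r * s) ^ 2 := congrFun hv 0
      have v1 : ι b1 = -(2 * (r + s) * (r * s)) := congrFun hv 1
      have v2 : ι b2 = (r + s) ^ 2 + 2 * (r * s) := congrFun hv 2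
      have v3 : ι b3 = -(2 * (r + s)) := congrFun hv 3
      refine Finset.mem_union_right _ (Finset.mem_singleton.2 ?_)
      rw [Prod.mk.injEq]
      constructor
      · rw [v1, v2, v3]; field_simp; ring
      · rw [v0, v2, v3]; field_simp; ring

/-- quintic: pairs `(b1, b0)` -/
theorem core5 {K F : Type*} [Field K] [Field F] [DecidableEq F] (ι : K →+* F) (h2 : (2 : F) ≠ 0)
    (h5 : (5 : F) ≠ 0) (b4 b3 b2 : K) : ∃ T : Finset (F × F), T.card ≤ 6 ∧ ∀ (b1 b0 : K)
      (m : Multiset F), m.card = 5 → m.toFinset.card + 2 ≤ 5 →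
      (toPoly fun i => ι (![b0, b1, b2, b3, b4, 1] i)) = (m.map fun a => X - C a).prod →
      (ι b1, ι b0) ∈ T := by
  have h10 : (10 : F) ≠ 0 := by
    have : (10 : F) = 2 * 5 := by norm_num
    rw [this]
    exact mul_ne_zero h2 h5
  have hQ : (C 10 * X ^ 3 + C (6 * ι b4) * X ^ 2 + C (3 * ι b3) * X + C (ι b2)).natDegree ≤ 3 :=
    natDegree_cubic_le
  have hQ0 : C 10 * X ^ 3 + C (6 * ι b4) * X ^ 2 + C (3 * ι b3) * X + C (ι b2) ≠ 0 := by
    intro h
    have := leadingCoeff_cubic (b := 6 * ι b4) (c := 3 * ι b3) (d := ι b2) h10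
    rw [h, leadingCoeff_zero] at this
    exact h10 this.symm
  set Q : F[X] := C 10 * X ^ 3 + C (6 * ι b4) * X ^ 2 + C (3 * ι b3) * X + C (ι b2) with hQd
  have hR : (C (-5) * X ^ 3 + C (6 * ι b4) * X ^ 2 + C (-(2 * ι b4 ^ 2 + ι b3)) * X +
    C (ι b4 * ι b3 - ι b2)).natDegree ≤ 3 := natDegree_cubic_le
  have hR0 : C (-5) * X ^ 3 + C (6 * ι b4) * X ^ 2 + C (-(2 * ι b4 ^ 2 + ι b3)) * X +
    C (ι b4 * ι b3 - ι b2) ≠ 0 := by
    intro h
    have := leadingCoeff_cubic (b := 6 * ι b4) (c := -(2 * ι b4 ^ 2 + ι b3))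
      (d := ι b4 * ι b3 - ι b2) (neg_ne_zero.2 h5)
    rw [h, leadingCoeff_zero] at this
    exact neg_ne_zero.2 h5 this.symm
  set R : F[X] := C (-5) * X ^ 3 + C (6 * ι b4) * X ^ 2 + C (-(2 * ι b4 ^ 2 + ι b3)) * X +
    C (ι b4 * ι b3 - ι b2) with hRd
  refine ⟨Q.roots.toFinset.image
      (fun r => (r ^ 3 * (-ι b4 - 3 * r) + 3 * r ^ 2 * (ι b3 + 3 * r * ι b4 + 6 * r ^ 2),
        -(r ^ 3 * (ι b3 + 3 * r * ι b4 + 6 * r ^ 2)))) ∪
    R.roots.toFinset.image (fun u => (((ι b3 - 2 * ι b4 * u + 3 * u ^ 2) / 2) ^ 2 +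
        u * (ι b3 - 2 * ι b4 * u + 3 * u ^ 2) * (ι b4 - 2 * u),
      ((ι b3 - 2 * ι b4 * u + 3 * u ^ 2) / 2) ^ 2 * (ι b4 - 2 * u))), ?_, ?_⟩
  · refine (Finset.card_union_le _ _).trans ?_
    have e1 : (Q.roots.toFinset.image
      (fun r => (r ^ 3 * (-ι b4 - 3 * r) + 3 * r ^ 2 * (ι b3 + 3 * r * ι b4 + 6 * r ^ 2),
        -(r ^ 3 * (ι b3 + 3 * r * ι b4 + 6 * r ^ 2))))).card ≤ 3 :=
      Finset.card_image_le.trans ((Multiset.toFinset_card_le _).trans ((card_roots' Q).trans hQ))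
    have e2 : (R.roots.toFinset.image (fun u => (((ι b3 - 2 * ι b4 * u + 3 * u ^ 2) / 2) ^ 2 +
        u * (ι b3 - 2 * ι b4 * u + 3 * u ^ 2) * (ι b4 - 2 * u),
      ((ι b3 - 2 * ι b4 * u + 3 * u ^ 2) / 2) ^ 2 * (ι b4 - 2 * u)))).card ≤ 3 :=
      Finset.card_image_le.trans ((Multiset.toFinset_card_le _).trans ((card_roots' R).trans hR))
    omega
  · intro b1 b0 m hm hmc hmp
    rcases multi' m (by rw [hm]; exact hmc) with ⟨r, m', rfl⟩ | ⟨r, s, m', rfl⟩
    · obtain ⟨s, t, rfl⟩ : ∃ s t, m' = {s, t} := by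
        rw [← Multiset.card_eq_two]
        simpa using hm
      have hv := toPoly_injective (hmp.trans (prod311 r s t))
      have v0 : ι b0 = -(r ^ 3 * (s * t)) := congrFun hv 0
      have v1 : ι b1 = r ^ 3 * (s + t) + 3 * r ^ 2 * (s * t) := congrFun hv 1
      have v2 : ι b2 = -(r ^ 3 + 3 * r ^ 2 * (s + t) + 3 * r * (s * t)) := congrFun hv 2
      have v3 : ι b3 = 3 * r ^ 2 + 3 * r * (s + t) + s * t := congrFun hv 3
      have v4 : ι b4 = -(3 * r + (s + t)) := congrFun hv 4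
      refine Finset.mem_union_left _ (Finset.mem_image.2 ⟨r, ?_, ?_⟩)
      · rw [Multiset.mem_toFinset, mem_roots hQ0, IsRoot]
        simp only [hQd, eval_add, eval_mul, eval_C, eval_pow, eval_X, v2, v3, v4]
        ring
      · rw [Prod.mk.injEq]
        constructor
        · rw [v1, v3, v4]; ring
        · rw [v0, v3, v4]; ring
    · obtain ⟨t, rfl⟩ : ∃ t, m' = {t} := by
        rw [← Multiset.card_eq_one]
        simpa using hm
      have hv := toPoly_injective (hmp.trans (prod221 r s t))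
      have v0 : ι b0 = -((r * s) ^ 2 * t) := congrFun hv 0
      have v1 : ι b1 = (r * s) ^ 2 + 2 * (r + s) * (r * s) * t := congrFun hv 1
      have v2 : ι b2 = -(2 * (r + s) * (r * s) + t * ((r + s) ^ 2 + 2 * (r * s))) := congrFun hv 2
      have v3 : ι b3 = (r + s) ^ 2 + 2 * (r * s) + 2 * (r + s) * t := congrFun hv 3
      have v4 : ι b4 = -(2 * (r + s) + t) := congrFun hv 4
      refine Finset.mem_union_right _ (Finset.mem_image.2 ⟨-(r + s), ?_, ?_⟩)
      · rw [Multiset.mem_toFinset, mem_roots hR0, IsRoot]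
        simp only [hRd, eval_add, eval_mul, eval_C, eval_pow, eval_X, v2, v3, v4]
        ring
      · rw [Prod.mk.injEq]
        constructor
        · rw [v1, v3, v4]; field_simp; ring
        · rw [v0, v3, v4]; field_simp; ring

theorem pairs4 (p : ℕ) [Fact p.Prime] (hp : 4 < p) (b3 b2 : ZMod p) :
    {z : ZMod p × ZMod p | ![z.2, z.1, b2, b3, 1] ∈ Ind 4 p 2}.ncard ≤ 3 := by
  classical
  have h2 : (2 : AlgebraicClosure (ZMod p)) ≠ 0 := by
    exact_mod_cast cast_ne_zero (p := p) (F := AlgebraicClosure (ZMod p)) 2 (fun q hq hd => by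
      have := Nat.le_of_dvd (by norm_num) hd; omega)
  have h3 : (3 : AlgebraicClosure (ZMod p)) ≠ 0 := by
    exact_mod_cast cast_ne_zero (p := p) (F := AlgebraicClosure (ZMod p)) 3 (fun q hq hd => by
      have := Nat.le_of_dvd (by norm_num) hd; omega)
  have h6 : (6 : AlgebraicClosure (ZMod p)) ≠ 0 := by
    have : (6 : AlgebraicClosure (ZMod p)) = 2 * 3 := by norm_num
    rw [this]
    exact mul_ne_zero h2 h3
  obtain ⟨T, hT, hT'⟩ := core4 (algebraMap (ZMod p) (AlgebraicClosure (ZMod p))) h2 h6 b3 b2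
  refine (card_le_of_image _ (fun z : ZMod p × ZMod p =>
    (algebraMap (ZMod p) (AlgebraicClosure (ZMod p)) z.1,
      algebraMap (ZMod p) (AlgebraicClosure (ZMod p)) z.2)) ?_ T ?_).trans hT
  · intro z z' h
    simp only [Prod.mk.injEq] at h
    exact Prod.ext ((algebraMap _ _).injective h.1) ((algebraMap _ _).injective h.2)
  · rintro ⟨b1, b0⟩ hz
    obtain ⟨m, hm, hmc, hmp⟩ := roots_of_index _ 2 (by rfl) hz
    rw [map_toPoly] at hmp
    exact hT' b1 b0 m hm (hmc _) hmp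

theorem pairs5 (p : ℕ) [Fact p.Prime] (hp : 5 < p) (b4 b3 b2 : ZMod p) :
    {z : ZMod p × ZMod p | ![z.2, z.1, b2, b3, b4, 1] ∈ Ind 5 p 2}.ncard ≤ 6 := by
  classical
  have h2 : (2 : AlgebraicClosure (ZMod p)) ≠ 0 := by
    exact_mod_cast cast_ne_zero (p := p) (F := AlgebraicClosure (ZMod p)) 2 (fun q hq hd => by
      have := Nat.le_of_dvd (by norm_num) hd; omega)
  have h5 : (5 : AlgebraicClosure (ZMod p)) ≠ 0 := by
    exact_mod_cast cast_ne_zero (p := p) (F := AlgebraicClosure (ZMod p)) 5 (fun q hq hd => by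
      have := Nat.le_of_dvd (by norm_num) hd; omega)
  obtain ⟨T, hT, hT'⟩ := core5 (algebraMap (ZMod p) (AlgebraicClosure (ZMod p))) h2 h5 b4 b3 b2
  refine (card_le_of_image _ (fun z : ZMod p × ZMod p =>
    (algebraMap (ZMod p) (AlgebraicClosure (ZMod p)) z.1,
      algebraMap (ZMod p) (AlgebraicClosure (ZMod p)) z.2)) ?_ T ?_).trans hT
  · intro z z' h
    simp only [Prod.mk.injEq] at h
    exact Prod.ext ((algebraMap _ _).injective h.1) ((algebraMap _ _).injective h.2)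
  · rintro ⟨b1, b0⟩ hz
    obtain ⟨m, hm, hmc, hmp⟩ := roots_of_index _ 2 (by rfl) hz
    rw [map_toPoly] at hmp
    exact hT' b1 b0 m hm (hmc _) hmp

/-- quartic of index 3 -/
theorem index3 (p : ℕ) [Fact p.Prime] (b3 b2 b1 b0 : ZMod p)
    (h : ![b0, b1, b2, b3, 1] ∈ Ind 4 p 3) : 8 * b2 = 3 * b3 ^ 2 := by
  classical
  obtain ⟨m, hm, hmc, hmp⟩ := roots_of_index _ 3 (by rfl) h
  rw [map_toPoly] at hmp
  have h1 := hmc inferInstance
  obtain ⟨r, rfl⟩ : ∃ r, m = Multiset.replicate 4 r := by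
    obtain ⟨r, hr⟩ := Multiset.card_pos_iff_exists_mem.1 (by rw [hm]; norm_num : 0 < m.card)
    refine ⟨r, Multiset.eq_replicate.2 ⟨hm, fun x hx => ?_⟩⟩
    have : m.toFinset.card ≤ 1 := by omega
    exact Finset.card_le_one.1 this x (Multiset.mem_toFinset.2 hx) r (Multiset.mem_toFinset.2 hr)
  have hv := toPoly_injective (hmp.trans (prod4 r))
  have v2 : algebraMap (ZMod p) (AlgebraicClosure (ZMod p)) b2 = 6 * r ^ 2 := congrFun hv 2
  have v3 : algebraMap (ZMod p) (AlgebraicClosure (ZMod p)) b3 = -(4 * r) := congrFun hv 3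
  apply (algebraMap (ZMod p) (AlgebraicClosure (ZMod p))).injective
  rw [map_mul, map_mul, map_pow, v2, v3]
  simp only [map_ofNat]
  ring

end RC

end Pool.Agent.Helper12.VW
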