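import Pool.Agent.Helper12.VW.Defs

/-!
# VW-R: common part of the refined counts
-/

open Polynomial

namespace Pool.Agent.Helper12.VW

namespace RC

/-- integers in one class modulo `q` in an interval -/
theorem card_class (q : ℕ) (hq : 0 < q) (B : ℝ) (hB : 0 ≤ B) (S : Finset ℤ)
    (hS : ∀ x ∈ S, |(x : ℝ)| ≤ B) (hc : ∀ x ∈ S, ∀ y ∈ S, (q : ℤ) ∣ x - y) :
    (S.card : ℝ) ≤ 2 * B / q + 1 := by
  have hq' : (0 : ℝ) < q := by exact_mod_cast hq
  have hinj : Set.InjOn (fun x : ℤ => ⌊((x : ℝ) + B) / q⌋₊) S := by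
    intro x hx y hy hxy
    simp only at hxy
    obtain ⟨c, hcc⟩ := hc x hx y hy
    have h1 : (0 : ℝ) ≤ ((x : ℝ) + B) / q :=
      div_nonneg (by linarith [(abs_le.1 (hS x hx)).1]) hq'.le
    have h2 : (0 : ℝ) ≤ ((y : ℝ) + B) / q :=
      div_nonneg (by linarith [(abs_le.1 (hS y hy)).1]) hq'.le
    have h3 := Nat.floor_le h1
    have h4 := Nat.lt_floor_add_one (((x : ℝ) + B) / q)
    have h5 := Nat.floor_le h2
    have h6 := Nat.lt_floor_add_one (((y : ℝ) + B) / q)
    rw [hxy] at h3 h4
    have h7 : ((x : ℝ) + B) / q - ((y : ℝ) + B) / q = c := by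
      have : ((x - y : ℤ) : ℝ) = ((q : ℤ) * c : ℤ) := by rw [hcc]
      push_cast at this
      field_simp
      linarith
    have h8 : |(c : ℝ)| < 1 := by rw [← h7, abs_lt]; constructor <;> linarith
    have h9 : c = 0 := by
      have : |c| < 1 := by exact_mod_cast h8
      exact Int.abs_lt_one_iff.1 this
    rw [h9] at hcc
    linarith
  have hmaps : ∀ x ∈ S, (fun x : ℤ => ⌊((x : ℝ) + B) / q⌋₊) x ∈
      Finset.range (⌊2 * B / q⌋₊ + 1) := by
    intro x hx
    simp only [Finset.mem_range]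
    refine Nat.lt_succ_of_le (Nat.floor_le_floor ?_)
    gcongr
    linarith [(abs_le.1 (hS x hx)).2]
  have := Finset.card_le_card_of_injOn _ hmaps hinj
  rw [Finset.card_range] at this
  calc (S.card : ℝ) ≤ ((⌊2 * B / q⌋₊ + 1 : ℕ) : ℝ) := by exact_mod_cast this
    _ ≤ 2 * B / q + 1 := by
        push_cast
        linarith [Nat.floor_le (show (0 : ℝ) ≤ 2 * B / q by positivity)]

theorem dvd_of_primeFactors {q : ℕ} (hq : Squarefree q) {z : ℤ}
    (h : ∀ p ∈ q.primeFactors, (p : ℤ) ∣ z) : (q : ℤ) ∣ z := by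
  rw [Int.natCast_dvd]
  have h1 : ∏ p ∈ q.primeFactors, p = q := Nat.prod_primeFactors_of_squarefree hq
  rw [← h1]
  refine Finset.prod_primes_dvd _ (fun p hp => (Nat.prime_of_mem_primeFactors hp).prime) ?_
  intro p hp
  exact Int.natCast_dvd.1 (h p hp)

/-- pairs of integers with reductions modulo `p ∣ q` in small sets -/
theorem card_pairs (q k : ℕ) (hq : Squarefree q) (A : ∀ p : ℕ, Set (ZMod p × ZMod p))
    (hA : ∀ p ∈ q.primeFactors, (A p).Finite ∧ (A p).ncard ≤ k) (B1 B0 : ℝ) (hB1 : 0 ≤ B1)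
    (hB0 : 0 ≤ B0) (S : Finset (ℤ × ℤ))
    (hS : ∀ z ∈ S, |(z.1 : ℝ)| ≤ B1 ∧ |(z.2 : ℝ)| ≤ B0 ∧
      ∀ p ∈ q.primeFactors, ((z.1 : ZMod p), (z.2 : ZMod p)) ∈ A p) :
    (S.card : ℝ) ≤ (k : ℝ) ^ q.primeFactors.card * ((2 * B1 / q + 1) * (2 * B0 / q + 1)) := by
  classical
  have hq0 : 0 < q := Nat.pos_of_ne_zero hq.ne_zero
  have hq' : (0 : ℝ) < q := by exact_mod_cast hq0
  let φ : ℤ × ℤ → (∀ p : q.primeFactors, ZMod p × ZMod p) :=
    fun z p => ((z.1 : ZMod p), (z.2 : ZMod p))
  have hfib : ∀ b ∈ S.image φ, (({z ∈ S | φ z = b}.card : ℕ) : ℝ) ≤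
      (2 * B1 / q + 1) * (2 * B0 / q + 1) := by
    intro b _
    set F := {z ∈ S | φ z = b} with hF
    have hsub : F ⊆ (F.image Prod.fst) ×ˢ (F.image Prod.snd) := by
      intro z hz
      exact Finset.mem_product.2 ⟨Finset.mem_image_of_mem _ hz, Finset.mem_image_of_mem _ hz⟩
    have hcong : ∀ z ∈ F, ∀ z' ∈ F, (q : ℤ) ∣ z.1 - z'.1 ∧ (q : ℤ) ∣ z.2 - z'.2 := by
      intro z hz z' hz'
      have e : φ z = φ z' := by
        rw [(Finset.mem_filter.1 hz).2, (Finset.mem_filter.1 hz').2]
      constructor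
      · refine dvd_of_primeFactors hq fun p hp => ?_
        have := congrArg Prod.fst (congrFun e ⟨p, hp⟩)
        simp only [φ] at this
        rw [← ZMod.intCast_zmod_eq_zero_iff_dvd, Int.cast_sub, sub_eq_zero]
        exact this
      · refine dvd_of_primeFactors hq fun p hp => ?_
        have := congrArg Prod.snd (congrFun e ⟨p, hp⟩)
        simp only [φ] at this
        rw [← ZMod.intCast_zmod_eq_zero_iff_dvd, Int.cast_sub, sub_eq_zero]
        exact this
    have h1 : ((F.image Prod.fst).card : ℝ) ≤ 2 * B1 / q + 1 := by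
      refine card_class q hq0 B1 hB1 _ ?_ ?_
      · intro x hx
        obtain ⟨z, hz, rfl⟩ := Finset.mem_image.1 hx
        exact (hS z (Finset.mem_filter.1 hz).1).1
      · intro x hx y hy
        obtain ⟨z, hz, rfl⟩ := Finset.mem_image.1 hx
        obtain ⟨z', hz', rfl⟩ := Finset.mem_image.1 hy
        exact (hcong z hz z' hz').1
    have h0 : ((F.image Prod.snd).card : ℝ) ≤ 2 * B0 / q + 1 := by
      refine card_class q hq0 B0 hB0 _ ?_ ?_
      · intro x hx
        obtain ⟨z, hz, rfl⟩ := Finset.mem_image.1 hx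
        exact (hS z (Finset.mem_filter.1 hz).1).2.1
      · intro x hx y hy
        obtain ⟨z, hz, rfl⟩ := Finset.mem_image.1 hx
        obtain ⟨z', hz', rfl⟩ := Finset.mem_image.1 hy
        exact (hcong z hz z' hz').2
    calc (F.card : ℝ) ≤ (((F.image Prod.fst) ×ˢ (F.image Prod.snd)).card : ℕ) := by
          exact_mod_cast Finset.card_le_card hsub
      _ = ((F.image Prod.fst).card : ℝ) * ((F.image Prod.snd).card : ℝ) := by
          rw [Finset.card_product]; push_cast; ring
      _ ≤ _ := by gcongr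
  have himg : ((S.image φ).card : ℝ) ≤ (k : ℝ) ^ q.primeFactors.card := by
    have hfin : ∀ p : q.primeFactors, (A p).Finite := fun p => (hA p p.2).1
    have hsub : S.image φ ⊆ Fintype.piFinset fun p : q.primeFactors => (hfin p).toFinset := by
      intro b hb
      obtain ⟨z, hz, rfl⟩ := Finset.mem_image.1 hb
      rw [Fintype.mem_piFinset]
      intro p
      rw [Set.Finite.mem_toFinset]
      exact (hS z hz).2.2 p p.2
    have h1 := Finset.card_le_card hsub
    rw [Fintype.card_piFinset] at h1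
    have h2 : ∏ p : q.primeFactors, ((hfin p).toFinset).card ≤ ∏ _p : q.primeFactors, k := by
      refine Finset.prod_le_prod' fun p _ => ?_
      rw [← Set.ncard_eq_toFinset_card _ (hfin p)]
      exact (hA p p.2).2
    have h3 : ∏ _p : q.primeFactors, k = k ^ q.primeFactors.card := by
      rw [Finset.prod_const, Finset.card_univ, Fintype.card_coe]
    exact_mod_cast (h1.trans h2).trans_eq h3
  have hsum : (S.card : ℝ) = ∑ b ∈ S.image φ, (({z ∈ S | φ z = b}.card : ℕ) : ℝ) := by
    have := Finset.card_eq_sum_card_image φ S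
    rw [this]
    push_cast
    rfl
  rw [hsum]
  calc ∑ b ∈ S.image φ, (({z ∈ S | φ z = b}.card : ℕ) : ℝ)
      ≤ ∑ _b ∈ S.image φ, (2 * B1 / q + 1) * (2 * B0 / q + 1) := Finset.sum_le_sum hfib
    _ = ((S.image φ).card : ℝ) * ((2 * B1 / q + 1) * (2 * B0 / q + 1)) := by
        rw [Finset.sum_const, nsmul_eq_mul]
    _ ≤ _ := by gcongr

/-- pigeonhole for root multisets -/
theorem multi {α : Type*} [DecidableEq α] (m : Multiset α)
    (h : m.toFinset.card + 2 ≤ m.card) :
    (∃ r, 3 ≤ m.count r) ∨ ∃ r s, r ≠ s ∧ 2 ≤ m.count r ∧ 2 ≤ m.count s := by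
  by_contra hcon
  push Not at hcon
  obtain ⟨h1, h2⟩ := hcon
  have hsum := Multiset.toFinset_sum_count_eq m
  by_cases hr : ∃ r, 2 ≤ m.count r
  · obtain ⟨r, hr⟩ := hr
    have hrm : r ∈ m.toFinset := by
      rw [Multiset.mem_toFinset, ← Multiset.count_pos]
      omega
    rw [← Finset.add_sum_erase _ _ hrm] at hsum
    have h3 : ∑ x ∈ m.toFinset.erase r, m.count x ≤ ∑ _x ∈ m.toFinset.erase r, 1 := by
      refine Finset.sum_le_sum fun x hx => ?_
      have := h2 r x (Finset.ne_of_mem_erase hx).symm hr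
      omega
    rw [Finset.sum_const, Finset.card_erase_of_mem hrm] at h3
    have h4 := h1 r
    have h5 : 0 < m.toFinset.card := Finset.card_pos.2 ⟨r, hrm⟩
    simp only [smul_eq_mul, mul_one] at h3
    omega
  · push Not at hr
    have h3 : ∑ x ∈ m.toFinset, m.count x ≤ ∑ _x ∈ m.toFinset, 1 :=
      Finset.sum_le_sum fun x _ => by have := hr x; omega
    rw [Finset.sum_const] at h3
    simp only [smul_eq_mul, mul_one] at h3
    omega

theorem multi' {α : Type*} (m : Multiset α) [DecidableEq α] (h : m.toFinset.card + 2 ≤ m.card) :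
    (∃ r m', m = r ::ₘ r ::ₘ r ::ₘ m') ∨ ∃ r s m', m = r ::ₘ r ::ₘ s ::ₘ s ::ₘ m' := by
  rcases multi m h with ⟨r, hr⟩ | ⟨r, s, hrs, hr, hs⟩
  · left
    obtain ⟨m', hm'⟩ := Multiset.le_iff_exists_add.1 (Multiset.le_count_iff_replicate_le.1 hr)
    refine ⟨r, m', ?_⟩
    rw [hm']
    simp [Multiset.replicate_succ]
  · right
    have : Multiset.replicate 2 r + Multiset.replicate 2 s ≤ m := by
      rw [Multiset.le_iff_count]
      intro x
      rw [Multiset.count_add, Multiset.count_replicate, Multiset.count_replicate]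
      by_cases h1 : r = x
      · subst h1
        rw [if_pos rfl, if_neg (Ne.symm hrs)]
        simpa using hr
      · rw [if_neg h1]
        by_cases h2 : s = x
        · subst h2
          simpa using hs
        · rw [if_neg h2]
          simp
    obtain ⟨m', hm'⟩ := Multiset.le_iff_exists_add.1 this
    refine ⟨r, s, m', ?_⟩
    rw [hm']
    simp only [Multiset.replicate_succ, Multiset.replicate_zero, Multiset.cons_add, zero_add]

/-- the roots of a form of index at least `k` with nonzero top coefficient -/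
theorem roots_of_index {n p : ℕ} [Fact p.Prime] (v : Fin (n + 1) → ZMod p) (k : ℕ)
    (hv : v (Fin.last n) = 1) (h : v ∈ Ind n p k) :
    ∃ m : Multiset (AlgebraicClosure (ZMod p)), m.card = n ∧ (∀ _ : DecidableEq (AlgebraicClosure (ZMod p)), m.toFinset.card + k ≤ n) ∧
      (toPoly v).map (algebraMap (ZMod p) (AlgebraicClosure (ZMod p))) =
        (m.map fun a => X - C a).prod := by
  classical
  have hdeg : (toPoly v).natDegree = n ∧ (toPoly v).Monic := by
    have h1 : toPoly v = X ^ n + ∑ i : Fin n, C (v i.castSucc) * X ^ (i : ℕ) := by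
      unfold toPoly
      rw [Fin.sum_univ_castSucc, hv]
      simp [add_comm]
    have h2 : (∑ i : Fin n, C (v i.castSucc) * X ^ (i : ℕ) : (ZMod p)[X]).degree < (n : WithBot ℕ) := by
      refine lt_of_le_of_lt (degree_sum_le _ _) ?_
      rw [Finset.sup_lt_iff (by simpa using WithBot.bot_lt_coe n)]
      intro i _
      exact lt_of_le_of_lt (degree_C_mul_X_pow_le _ _) (by exact_mod_cast i.2)
    rw [h1]
    exact ⟨natDegree_eq_of_degree_eq_some (by
      rw [degree_add_eq_left_of_degree_lt (by simpa using h2), degree_X_pow]),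
      monic_X_pow_add h2⟩
  set f := (toPoly v).map (algebraMap (ZMod p) (AlgebraicClosure (ZMod p))) with hf
  have hs := IsAlgClosed.splits f
  have hm : f.Monic := hdeg.2.map _
  refine ⟨f.roots, ?_, ?_, ?_⟩
  · rw [← hs.natDegree_eq_card_roots, hf, hdeg.2.natDegree_map, hdeg.1]
  · intro inst
    rcases h with h | h
    · rw [h] at hv
      simp at hv
    · unfold nroots at h
      rw [if_neg (by rw [hv]; exact one_ne_zero), Polynomial.rootSet, Set.ncard_coe_finset,
        aroots_def, ← hf] at h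
      rw [add_zero] at h
      have hinst : inst = fun a b => Classical.propDecidable (a = b) := Subsingleton.elim _ _
      rw [hinst]
      exact h
  · exact hs.eq_prod_roots_of_monic hm

end RC

end Pool.Agent.Helper12.VW
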